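import Pool.Agent.Full.Asm.Main

/-!
Conformal invariance of the crossing probabilities of critical bond percolation on the square lattice:
for every Jordan domain with two disjoint boundary arcs the crossing probability has a limit as the
mesh tends to zero, and the limit is invariant under conformal maps.
-/

set_option autoImplicit false

open H47Perc Set Filter Topology

namespace Pool.Agent.Results.MP_35f495_pr.AllJordanDomains

/-- `D` is a bounded domain, its boundary is a Jordan curve, `A` and `B` are two disjoint arcs of the
boundary (closed connected subsets of the curve with more than one point) -/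
structure IsJordan (D A B : Set ℂ) : Prop where
  isOpen : IsOpen D
  isBounded : Bornology.IsBounded D
  isConnected : IsConnected D
  curve : ∃ γ : Circle → ℂ, Continuous γ ∧ Function.Injective γ ∧ frontier D = range γ
  isClosed_A : IsClosed A
  isPreconnected_A : IsPreconnected A
  A_subset : A ⊆ frontier D
  nontrivial_A : A.Nontrivial
  isClosed_B : IsClosed B
  isPreconnected_B : IsPreconnected B
  B_subset : B ⊆ frontier D
  nontrivial_B : B.Nontrivial
  disjoint : Disjoint A B

/-- the point of the plane at which the vertex `z` of the lattice of mesh `ε` lies -/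
def pos (ε : ℝ) (z : ℤ × ℤ) : ℂ := ⟨ε * z.1, ε * z.2⟩

/-- the union of the open edges of the configuration `ω` (closed segments of length `ε`) -/
def openSet (ε : ℝ) (ω : Finset (Sym2 (ℤ × ℤ))) : Set ℂ :=
  {w | ∃ z z' : ℤ × ℤ, s(z, z') ∈ ω ∧ w ∈ segment ℝ (pos ε z) (pos ε z')}

/-- an open path in the closure of `D` joins `A` to `B` -/
def Crossed (ε : ℝ) (D A B : Set ℂ) (ω : Finset (Sym2 (ℤ × ℤ))) : Prop :=
  ∃ a ∈ A, ∃ b ∈ B, JoinedIn (openSet ε ω ∩ closure D) a b

/-- the probability that critical bond percolation on the lattice of mesh `ε` contains an open path in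
the closure of `D` which joins `A` to `B` tends to `L` as `ε` tends to zero from above; `S` is any
finite set of vertices which contains all vertices at distance at most `ε` from the closure of `D` (the
edges between other vertices do not meet the closure of `D`) -/
def Tends (D A B : Set ℂ) (L : ℝ) : Prop :=
  ∀ δ : ℝ, 0 < δ → ∃ ε₀ : ℝ, 0 < ε₀ ∧ ∀ ε : ℝ, 0 < ε → ε < ε₀ → ∀ S : Finset (ℤ × ℤ),
    (∀ z : ℤ × ℤ, Metric.infDist (pos ε z) (closure D) ≤ ε → z ∈ S) →
      |perc half S (Crossed ε D A B) - L| < δ

/-- **Conformal invariance of critical bond percolation on the square lattice.**  For every Jordan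
domain `D` and all disjoint arcs `A`, `B` of its boundary the crossing probability has a limit `L`, and
for every map `f`, continuous and injective on the closure of `D` and holomorphic in `D`, the crossing
probability of `f(D)`, `f(A)`, `f(B)` has the same limit. -/
theorem result : ∀ D A B : Set ℂ, IsJordan D A B → ∃ L : ℝ, Tends D A B L ∧
    ∀ f : ℂ → ℂ, ContinuousOn f (closure D) → InjOn f (closure D) → DifferentiableOn ℂ f D →
      Tends (f '' D) (f '' A) (f '' B) L :=
  fun D A B h => Full.q1J D A B ⟨h.1, h.2, h.3, h.4, h.5, h.6, h.7, h.8, h.9, h.10, h.11, h.12, h.13⟩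

end Pool.Agent.Results.MP_35f495_pr.AllJordanDomains
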