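import Pool.Agent.Helper82.Nest.Ann

/-!
Critical bond percolation on the square lattice: number of nested interface loops, all loop weights.

Points are the vertices `(z, false)` and the faces `(z, true)` of the square lattice.  A path moves
freely along open edges (vertex to vertex) and across closed edges (face to face); a colour change is
a step between a face and one of its four corners.  For `m ≤ n`, `cc m n ω` is the least number of
colour changes of a path in the annulus `m ≤ |z|_∞ ≤ n` from a vertex with `|z|_∞ = m` to a vertex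
with `|z|_∞ = n`; it is `0` if and only if the annulus is crossed by an open path.  `ex m n f` is the
expectation of `f ω`, where `ω` is a uniformly random set of edges of the annulus.

For every loop weight `w ∈ [0, 1]`, the expectation of `w ^ cc m n ω` is, up to constants,
`((m + 1) / (n + 1)) ^ x(w)`, `x(w) = 3/4 (arccos(w/2)^2 / π^2 - 1/9)`.  For `w = 0` this is the
probability that the annulus is crossed by an open path, and `x(0) = 5/48`.
-/

set_option autoImplicit false

open H47Perc

namespace Pool.Agent.Results.MP_35f495_pr.BulkNesting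

/-- For every `w ∈ [0, 1]` there are `0 < c` and `C` such that for all `0 ≤ m ≤ n` the expectation
of `w ^ (number of colour changes from distance m to distance n)` lies between
`c ((m+1)/(n+1))^x(w)` and `C ((m+1)/(n+1))^x(w)`, `x(w) = 3/4 (arccos(w/2)^2/π^2 - 1/9)`. -/
theorem result : ∀ w : ℝ, 0 ≤ w → w ≤ 1 → ∃ c C : ℝ, 0 < c ∧ ∀ m n : ℕ, m ≤ n →
    c * (((m:ℝ) + 1) / (n + 1)) ^ (3 / 4 * (Real.arccos (w / 2) ^ 2 / Real.pi ^ 2 - 1 / 9)) ≤
      H82Nest.ex m n (fun ω => w ^ H82Nest.cc m n ω) ∧
    H82Nest.ex m n (fun ω => w ^ H82Nest.cc m n ω) ≤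
      C * (((m:ℝ) + 1) / (n + 1)) ^ (3 / 4 * (Real.arccos (w / 2) ^ 2 / Real.pi ^ 2 - 1 / 9)) :=
  fun _ hw hw1 => H82Nest.nest_annulus hw hw1

end Pool.Agent.Results.MP_35f495_pr.BulkNesting
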