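import Pool.Agent.Full.Asm.Main
import Pool.Agent.Cardy.Main

/-!
Cardy's formula for critical bond percolation on the square lattice, for all Jordan domains: for every
Jordan domain with two disjoint boundary arcs the crossing probability tends, as the mesh tends to zero,
to Cardy's function of the cross-ratio of the four ends of the arcs.
-/

set_option autoImplicit false

open H47Perc Set Filter Topology

namespace Pool.Agent.Results.MP_35f495_pr.CardyFormula

/-- `D` is a bounded domain, its boundary is a Jordan curve, `A` and `B` are two disjoint arcs of the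
boundary (closed connected subsets of the curve with more than one point) -/
structure IsJordan (D A B : Set ℂ) : Prop where
  isOpen : IsOpen D
  isBounded : Bornology.IsBounded D
  isConnected : IsConnected D
  curve : ∃ γ : Circle → ℂ, Continuous γ ∧ Function.Injective γ ∧ frontier D = range γ
  isClosed_A : IsClosed A
  isPreconnected_A : IsPreconnected A
  A_subset : A ⊆ frontier D
  nontrivial_A : A.Nontrivial
  isClosed_B : IsClosed B
  isPreconnected_B : IsPreconnected B
  B_subset : B ⊆ frontier D
  nontrivial_B : B.Nontrivial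
  disjoint : Disjoint A B

/-- the point of the plane at which the vertex `z` of the lattice of mesh `ε` lies -/
def pos (ε : ℝ) (z : ℤ × ℤ) : ℂ := ⟨ε * z.1, ε * z.2⟩

/-- the union of the open edges of the configuration `ω` (closed segments of length `ε`) -/
def openSet (ε : ℝ) (ω : Finset (Sym2 (ℤ × ℤ))) : Set ℂ :=
  {w | ∃ z z' : ℤ × ℤ, s(z, z') ∈ ω ∧ w ∈ segment ℝ (pos ε z) (pos ε z')}

/-- an open path in the closure of `D` joins `A` to `B` -/
def Crossed (ε : ℝ) (D A B : Set ℂ) (ω : Finset (Sym2 (ℤ × ℤ))) : Prop :=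
  ∃ a ∈ A, ∃ b ∈ B, JoinedIn (openSet ε ω ∩ closure D) a b

/-- the probability that critical bond percolation on the lattice of mesh `ε` contains an open path in
the closure of `D` which joins `A` to `B` tends to `L` as `ε` tends to zero from above; `S` is any
finite set of vertices which contains all vertices at distance at most `ε` from the closure of `D` (the
edges between other vertices do not meet the closure of `D`) -/
def Tends (D A B : Set ℂ) (L : ℝ) : Prop :=
  ∀ δ : ℝ, 0 < δ → ∃ ε₀ : ℝ, 0 < ε₀ ∧ ∀ ε : ℝ, 0 < ε → ε < ε₀ → ∀ S : Finset (ℤ × ℤ),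
    (∀ z : ℤ × ℤ, Metric.infDist (pos ε z) (closure D) ≤ ε → z ∈ S) →
      |perc half S (Crossed ε D A B) - L| < δ

/-- Cardy's function of the cross-ratio -/
noncomputable def cardyF (a : ℝ) : ℝ :=
  Real.Gamma (2 / 3) / Real.Gamma (1 / 3) ^ 2 * ∫ t in (0 : ℝ)..a, (t * (1 - t)) ^ (-(2 / 3) : ℝ)

/-- `φ` is a conformal map of the upper half-plane onto `D`, extended to a continuous injective map of
the closed upper half-plane with the point at infinity, with value `p` at infinity; `[0, m]` is mapped
onto `A` and `[1, ∞]` onto `B` -/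
structure IsChart (D A B : Set ℂ) (m : ℝ) (φ : ℂ → ℂ) (p : ℂ) : Prop where
  holomorphic : DifferentiableOn ℂ φ {z | 0 < z.im}
  image_eq : φ '' {z | 0 < z.im} = D
  continuous : ContinuousOn φ {z | 0 ≤ z.im}
  injective : InjOn φ {z | 0 ≤ z.im}
  infinity : Tendsto φ (Bornology.cobounded ℂ ⊓ 𝓟 {z | 0 ≤ z.im}) (𝓝 p)
  ne_infinity : ∀ z : ℂ, 0 ≤ z.im → φ z ≠ p
  image_A : (fun x : ℝ => φ x) '' Icc 0 m = A
  image_B : insert p ((fun x : ℝ => φ x) '' Ici 1) = B

/-- **Cardy's formula** for critical bond percolation on the square lattice, for all Jordan domains.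
Every Jordan domain `D` with disjoint arcs `A`, `B` of its boundary has a chart: for some `m` in `(0,1)`
the upper half-plane is mapped conformally onto `D`, `0, m` being mapped to the ends of `A` and `1, ∞` to
the ends of `B`.  For every chart the crossing probability tends to Cardy's function of `m`. -/
theorem result : ∀ D A B : Set ℂ, IsJordan D A B →
    (∃ (m : ℝ) (φ : ℂ → ℂ) (p : ℂ), 0 < m ∧ m < 1 ∧ IsChart D A B m φ p) ∧
    ∀ (m : ℝ) (φ : ℂ → ℂ) (p : ℂ), 0 < m → m < 1 → IsChart D A B m φ p →
      Tends D A B (cardyF m) := by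
  intro D A B h
  have hJ : Full.IsJordan D A B :=
    ⟨h.1, h.2, h.3, h.4, h.5, h.6, h.7, h.8, h.9, h.10, h.11, h.12, h.13⟩
  constructor
  · obtain ⟨m, φ, p, h0, h1, hφ⟩ := Cardy.exists_chart hJ
    exact ⟨m, φ, p, h0, h1, hφ.1, hφ.2, hφ.3, hφ.4, hφ.5, hφ.6, hφ.7, hφ.8⟩
  · intro m φ p h0 h1 hφ
    exact (Cardy.cardy_inv Full.q1J hJ h0 h1
      ⟨hφ.1, hφ.2, hφ.3, hφ.4, hφ.5, hφ.6, hφ.7, hφ.8⟩).1

end Pool.Agent.Results.MP_35f495_pr.CardyFormula
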