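import Pool.Agent.Helper8.Sg.Final

/-!
Critical bond percolation on the square lattice: the exponents `(4 k² - 1) / 12` of `2k` arms of
alternating colours in the plane (`1/4` for two arms, `5/4` for four arms, `35/12` for six arms),
in the form of two-sided bounds.

`bx n` is the box `[-n,n]²`, `P (edgesIn (bx n)) A` is the probability of `A` when every edge of the
box is open with probability `1/2`, independently, and `Alt k r n` is the event that, in the annulus
between the boxes `bx r` and `bx n`, there are `k` open paths and `k` closed dual paths that join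
the inner to the outer boundary, such that no two of the `k` open paths, and no two of the `k` dual
paths, are joined inside the annulus.
-/

set_option autoImplicit false

open H47Perc H81Tile
open Pool.Agent.Helper69.RSW (P)

namespace Pool.Agent.Results.MP_35f495_pr.EvenArms

/-- For every `k ≥ 1`, with `x = (4 k² - 1) / 12`: there is `c > 0` such that
`c (r/n)^x ≤ P(Alt k r n)` for all `r ≤ n` with `k ≤ 2 r`, and for every `r` with `k ≤ 2 r` there is
a `C` such that `P(Alt k r n) ≤ C (r/n)^x` for all `n ≥ r`. -/
theorem result (k : ℕ) (hk : 1 ≤ k) :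
    (∃ c : ℝ, 0 < c ∧ ∀ r n : ℕ, k ≤ 2 * r → r ≤ n →
      c * ((r : ℝ) / n) ^ ((4 * (k : ℝ) ^ 2 - 1) / 12) ≤ P (edgesIn (bx n)) (Alt k r n)) ∧
    ∀ r : ℕ, k ≤ 2 * r → ∃ C : ℝ, ∀ n : ℕ, r ≤ n →
      P (edgesIn (bx n)) (Alt k r n) ≤ C * ((r : ℝ) / n) ^ ((4 * (k : ℝ) ^ 2 - 1) / 12) :=
  Sg.alt_bounds hk

end Pool.Agent.Results.MP_35f495_pr.EvenArms
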